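import Pool.Agent.helper84.TEX.Spec

set_option autoImplicit false

namespace Pool.Agent.TEX

open Pool.Agent.TC Pool.Agent.TN Polynomial

noncomputable section

lemma X2T_root {n : ℕ} (f : Fin (n + 1) → ℤ) (a : Fin (n + 1) → Qb) (hR : Rts f a) (hinj : Function.Injective a)
    (x : Qb) (hx : x ^ (n + 1) + ∑ k, (f k : Qb) * x ^ (k : ℕ) = 0) : ∃ v, x = a v := by
  classical
  by_contra hcon
  push Not at hcon
  have hdeg : (∑ k, C (f k : Qb) * X ^ (k : ℕ) : Polynomial Qb).degree < (n + 1 : ℕ) := by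
    refine (degree_sum_le _ _).trans_lt ?_
    rw [Finset.sup_lt_iff (by exact WithBot.bot_lt_coe _)]
    intro k _
    refine (degree_C_mul_X_pow_le _ _).trans_lt ?_
    exact_mod_cast k.2
  have hm : (X ^ (n + 1) + ∑ k, C (f k : Qb) * X ^ (k : ℕ) : Polynomial Qb).Monic := monic_X_pow_add hdeg
  have hd : (X ^ (n + 1) + ∑ k, C (f k : Qb) * X ^ (k : ℕ) : Polynomial Qb).natDegree = n + 1 := by
    rw [natDegree_add_eq_left_of_degree_lt, natDegree_X_pow]
    rw [degree_X_pow]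
    exact hdeg
  have hroot : ∀ y : Qb, y ^ (n + 1) + ∑ k, (f k : Qb) * y ^ (k : ℕ) = 0 →
      y ∈ (X ^ (n + 1) + ∑ k, C (f k : Qb) * X ^ (k : ℕ) : Polynomial Qb).roots.toFinset := by
    intro y hy
    rw [Multiset.mem_toFinset, mem_roots hm.ne_zero, IsRoot.def]
    simpa [eval_finsetSum] using hy
  have hsub : insert x (Finset.univ.image a) ⊆
      (X ^ (n + 1) + ∑ k, C (f k : Qb) * X ^ (k : ℕ) : Polynomial Qb).roots.toFinset := by
    intro y hy
    rw [Finset.mem_insert] at hy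
    rcases hy with rfl | hy
    · exact hroot _ hx
    · rw [Finset.mem_image] at hy
      obtain ⟨j, -, rfl⟩ := hy
      exact hroot _ (hR j)
  have hcard := Finset.card_le_card hsub
  rw [Finset.card_insert_of_notMem (by
      rw [Finset.mem_image]
      rintro ⟨j, -, hj⟩
      exact hcon j hj.symm), Finset.card_image_of_injective _ hinj, Finset.card_univ, Fintype.card_fin] at hcard
  have h2 := (Multiset.toFinset_card_le _).trans
    (card_roots' (X ^ (n + 1) + ∑ k, C (f k : Qb) * X ^ (k : ℕ) : Polynomial Qb))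
  rw [hd] at h2
  omega

lemma X2T_img {n : ℕ} (f : Fin (n + 1) → ℤ) (a : Fin (n + 1) → Qb) (hR : Rts f a) (hinj : Function.Injective a)
    (s : Qb ≃+* Qb) (j : Fin (n + 1)) : ∃ v, s (a j) = a v := by
  refine X2T_root f a hR hinj _ ?_
  have := congrArg s (hR j)
  simpa [map_add, map_sum, map_mul, map_pow] using this

theorem X2T (hXIR : XIR_stmt) (hXTR : XTR_stmt) : X2T_stmt := by
  intro n f a s hn hs hC hR hinj hirr j j' u u' hjj huu
  obtain ⟨j₀, hj₀⟩ := hXTR n f a s hn hs hC hR hinj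
  obtain ⟨σ₁, h₁⟩ := hXIR n f a hR hirr j j₀
  obtain ⟨σ₂, h₂⟩ := hXIR n f a hR hirr u j₀
  let s₁ : Qb ≃+* Qb := σ₁
  let s₂ : Qb ≃+* Qb := σ₂
  have h₁' : s₁ (a j) = a j₀ := h₁
  have h₂' : s₂ (a u) = a j₀ := h₂
  obtain ⟨v, hv⟩ := X2T_img f a hR hinj s₁ j'
  obtain ⟨v', hv'⟩ := X2T_img f a hR hinj s₂ u'
  have hv0 : v ≠ j₀ := by
    intro h
    rw [h, ← h₁'] at hv
    exact hjj (hinj (s₁.injective hv)).symm
  have hv0' : v' ≠ j₀ := by
    intro h
    rw [h, ← h₂'] at hv'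
    exact huu (hinj (s₂.injective hv')).symm
  obtain ⟨σ₃, h₃, h₄⟩ := hj₀ v v' hv0 hv0'
  let s₃ : Qb ≃+* Qb := σ₃
  have h₃' : s₃ (a j₀) = a j₀ := h₃
  have h₄' : s₃ (a v) = a v' := h₄
  refine ⟨((s₁.trans s₃).trans s₂.symm : Qb ≃+* Qb), ?_, ?_⟩
  · show s₂.symm (s₃ (s₁ (a j))) = a u
    rw [h₁', h₃', ← h₂', RingEquiv.symm_apply_apply]
  · show s₂.symm (s₃ (s₁ (a j'))) = a u'
    rw [hv, h₄', ← hv', RingEquiv.symm_apply_apply]

end

end Pool.Agent.TEX
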