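import Pool.Agent.helper84.TEX.Spec

set_option autoImplicit false

namespace Pool.Agent.TEX

open Pool.Agent.TC Pool.Agent.TN Polynomial

noncomputable section

theorem XE6 : XE6_stmt := by
  intro ι _ m M t hM hco
  have key : ∀ j : Fin m, ∃ c : ℤ, ∀ i, (M i : ℤ) ∣ c - t i j := by
    intro j
    obtain ⟨c, hc⟩ := Nat.chineseRemainderOfFinset (fun i => (t i j % (M i : ℤ)).toNat) M
      (Finset.univ : Finset ι) (fun i _ => (hM i).ne') (fun i _ i' _ h => hco i i' h)
    refine ⟨(c : ℤ), fun i => ?_⟩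
    have h1 := hc i (Finset.mem_univ i)
    have h2 : ((t i j % (M i : ℤ)).toNat : ℤ) = t i j % (M i : ℤ) :=
      Int.toNat_of_nonneg (Int.emod_nonneg _ (by exact_mod_cast (hM i).ne'))
    have h3 : (c : ℤ) ≡ t i j % (M i : ℤ) [ZMOD (M i : ℤ)] := by
      rw [← h2]
      exact (Int.natCast_modEq_iff).2 h1
    have h4 : t i j % (M i : ℤ) ≡ t i j [ZMOD (M i : ℤ)] := Int.mod_modEq _ _
    exact ((h3.trans h4).symm).dvd
  choose c hc using key
  exact ⟨c, fun i j => hc j i⟩

end

end Pool.Agent.TEX
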