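import Pool.Agent.helper84.TEX.Spec

set_option autoImplicit false

namespace Pool.Agent.TEX

open Pool.Agent.TC Pool.Agent.TN Polynomial

noncomputable section

lemma XE8_deg {n : ℕ} (f : Fin (n + 1) → ℤ) :
    (∑ k, C (f k) * X ^ (k : ℕ) : Polynomial ℤ).degree < (n + 1 : ℕ) := by
  refine (degree_sum_le _ _).trans_lt ?_
  rw [Finset.sup_lt_iff (by exact WithBot.bot_lt_coe _)]
  intro k _
  refine (degree_C_mul_X_pow_le _ _).trans_lt ?_
  exact_mod_cast k.2

lemma XE8_aeval {n : ℕ} (f : Fin (n + 1) → ℤ) (x : Qb) :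
    aeval x ((pol f).map (Int.castRingHom ℚ)) = x ^ (n + 1) + ∑ k, (f k : Qb) * x ^ (k : ℕ) := by
  unfold pol
  simp [Polynomial.map_sum, map_sum]

theorem XE8 : XE8_stmt := by
  intro n f hirr
  have hm : (pol f).Monic := by
    unfold pol
    exact monic_X_pow_add (XE8_deg f)
  have hd : ((pol f).map (Int.castRingHom ℚ)).natDegree = n + 1 := by
    rw [hm.natDegree_map]
    unfold pol
    rw [natDegree_add_eq_left_of_degree_lt, natDegree_X_pow]
    rw [degree_X_pow]
    exact XE8_deg f
  have hs : ((pol f).map (Int.castRingHom ℚ)).Separable := hirr.separable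
  have hc := card_rootSet_eq_natDegree (K := Qb) hs (IsAlgClosed.splits _)
  rw [hd] at hc
  have e : Fin (n + 1) ≃ ((pol f).map (Int.castRingHom ℚ)).rootSet Qb := by
    refine Fintype.equivOfCardEq ?_
    rw [hc, Fintype.card_fin]
  refine ⟨fun j => (e j : Qb), fun i j h => e.injective (Subtype.ext h), fun j => ?_⟩
  rw [← XE8_aeval]
  exact (mem_rootSet.1 (e j).2).2

end

end Pool.Agent.TEX
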