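import Pool.Agent.helper84.TEX.Spec

set_option autoImplicit false

namespace Pool.Agent.TEX

open Pool.Agent.TC Pool.Agent.TN Polynomial

noncomputable section

lemma XIR_normal : Normal ℚ Qb :=
  have : Algebra.IsAlgebraic ℚ (AlgebraicClosure ℚ) := AlgebraicClosure.isAlgebraic ℚ
  have : IsAlgClosure ℚ Qb := ⟨inferInstance, this⟩
  IsAlgClosure.normal ℚ Qb

lemma XIR_monic {n : ℕ} (f : Fin (n + 1) → ℤ) : (pol f).Monic := by
  unfold pol
  refine monic_X_pow_add ?_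
  refine (degree_sum_le _ _).trans_lt ?_
  rw [Finset.sup_lt_iff (by exact WithBot.bot_lt_coe _)]
  intro k _
  refine (degree_C_mul_X_pow_le _ _).trans_lt ?_
  exact_mod_cast k.2

lemma XIR_aeval {n : ℕ} (f : Fin (n + 1) → ℤ) (x : Qb) :
    aeval x ((pol f).map (Int.castRingHom ℚ)) = x ^ (n + 1) + ∑ k, (f k : Qb) * x ^ (k : ℕ) := by
  unfold pol
  simp [Polynomial.map_sum, map_sum]

theorem XIR : XIR_stmt := by
  intro n f a ha hirr j j'
  have hm : ((pol f).map (Int.castRingHom ℚ)).Monic := (XIR_monic f).map _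
  have h1 : ∀ i, (pol f).map (Int.castRingHom ℚ) = minpoly ℚ (a i) := by
    intro i
    refine minpoly.eq_of_irreducible_of_monic hirr ?_ hm
    rw [XIR_aeval]
    exact ha i
  have hc : IsConjRoot ℚ (a j) (a j') := by
    show minpoly ℚ (a j) = minpoly ℚ (a j')
    rw [← h1 j, ← h1 j']
  have : Normal ℚ Qb := XIR_normal
  obtain ⟨σ, hσ⟩ := (isConjRoot_iff_exists_algEquiv).1 hc
  refine ⟨((σ.symm : Qb ≃ₐ[ℚ] Qb) : Qb ≃+* Qb), ?_⟩
  show σ.symm (a j) = a j'
  rw [← hσ, AlgEquiv.symm_apply_apply]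

end

end Pool.Agent.TEX
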