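import Pool.Agent.helper84.TEX.Spec

set_option autoImplicit false

namespace Pool.Agent.TEX

open Pool.Agent.TC Pool.Agent.TN Polynomial

noncomputable section

theorem XZL : XZL_stmt := by
  intro l r hr hl hlr x hx
  have hrp : r.Prime := hr.out
  have : Fact l.Prime := ⟨hl⟩
  -- an element of order l in (ZMod r)ˣ
  obtain ⟨u, hu⟩ := exists_prime_orderOf_dvd_card (G := (ZMod r)ˣ) l (by rw [ZMod.card_units]; exact hlr)
  have hul : ((u : ZMod r)) ^ l = 1 := by
    have := pow_orderOf_eq_one u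
    rw [hu] at this
    rw [← Units.val_pow_eq_pow_val, this, Units.val_one]
  have hu1 : (u : ZMod r) ≠ 1 := by
    intro h
    have h1 : u = 1 := Units.ext h
    rw [h1, orderOf_one] at hu
    exact hl.one_lt.ne hu
  have hl0 : ((l : ℕ) : ZMod r) ≠ 0 := by
    intro h
    rw [ZMod.natCast_eq_zero_iff] at h
    have h2 := (Nat.prime_dvd_prime_iff_eq hrp hl).1 h
    subst h2
    have h3 := Nat.le_of_dvd (by have := hrp.two_le; omega) hlr
    have := hrp.two_le
    omega
  obtain ⟨c, hc⟩ := ZMod.ringHom_surjective (PadicInt.toZMod (p := r)) (u : ZMod r)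
  -- Hensel
  have hnorm : ∀ z : ℤ_[r], ‖z‖ < 1 ↔ PadicInt.toZMod z = 0 := by
    intro z
    rw [PadicInt.norm_lt_one_iff_dvd, ← RingHom.mem_ker, PadicInt.ker_toZMod, PadicInt.maximalIdeal_eq_span_p,
      Ideal.mem_span_singleton]
  have h1 : ‖(X ^ l - 1 : Polynomial ℤ_[r]).aeval c‖ < 1 := by
    rw [hnorm]
    simp [hc, hul]
  have h2 : ‖(X ^ l - 1 : Polynomial ℤ_[r]).derivative.aeval c‖ = 1 := by
    refine le_antisymm (PadicInt.norm_le_one _) (not_lt.1 fun h => ?_)
    rw [hnorm] at h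
    simp only [derivative_sub, derivative_X_pow, derivative_one, sub_zero, map_mul, map_pow, aeval_X, hc,
      map_natCast, mul_eq_zero] at h
    rcases h with h | h
    · exact hl0 h
    · exact (u ^ (l - 1)).ne_zero (by rw [Units.val_pow_eq_pow_val]; exact h)
  obtain ⟨z, hz, hzc, -⟩ := hensels_lemma (F := (X ^ l - 1 : Polynomial ℤ_[r])) (a := c) (by rw [h2]; simpa using h1)
  rw [h2] at hzc
  have hzl : z ^ l = 1 := by
    have := hz
    simp only [map_sub, map_pow, aeval_X, map_one] at this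
    exact sub_eq_zero.1 this
  have hz1 : z ≠ 1 := by
    intro h
    rw [hnorm, map_sub, hc, h, map_one, sub_eq_zero] at hzc
    exact hu1 hzc.symm
  have hzp : IsPrimitiveRoot z l := by
    have := IsPrimitiveRoot.orderOf z
    rwa [orderOf_eq_prime hzl hz1] at this
  have hzq : IsPrimitiveRoot (algebraMap ℚ_[r] (Om r) (z : ℚ_[r])) l := by
    have h3 : IsPrimitiveRoot ((z : ℚ_[r])) l :=
      hzp.map_of_injective (f := (PadicInt.Coe.ringHom : ℤ_[r] →+* ℚ_[r])) Subtype.val_injective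
    exact h3.map_of_injective (algebraMap ℚ_[r] (Om r)).injective
  have : NeZero l := ⟨hl.ne_zero⟩
  obtain ⟨i, -, hi⟩ := hzq.eq_pow_of_pow_eq_one hx
  exact ⟨(z : ℚ_[r]) ^ i, by rw [map_pow, hi]⟩

end

end Pool.Agent.TEX
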