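import Pool.Agent.helper84.TEX.Spec

set_option autoImplicit false

namespace Pool.Agent.TEX

open Pool.Agent.TC Pool.Agent.TN Polynomial

noncomputable section

lemma XPB_normal : Normal ℚ Qb :=
  have : Algebra.IsAlgebraic ℚ (AlgebraicClosure ℚ) := AlgebraicClosure.isAlgebraic ℚ
  have : IsAlgClosure ℚ Qb := ⟨inferInstance, this⟩
  IsAlgClosure.normal ℚ Qb

theorem XPB : XPB_stmt := by
  intro r _ ψ τ
  let _ : Algebra Qb (Om r) := ψ.toAlgebra
  have : IsScalarTower ℚ Qb (Om r) := IsScalarTower.of_algebraMap_eq' (Subsingleton.elim _ _)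
  have : Normal ℚ Qb := XPB_normal
  let σ : Qb ≃ₐ[ℚ] Qb := (τ.restrictScalars ℚ).restrictNormal Qb
  refine ⟨(σ : Qb ≃+* Qb), fun x => ?_⟩
  exact AlgEquiv.restrictNormal_commutes (τ.restrictScalars ℚ) Qb x

end

end Pool.Agent.TEX
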